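import Pool.Agent.Lib.MP_7f190d_al.H54.LThin

/-!
# Module L, part d: the sets `LL u v` are coarsely connected; the theorem
-/

set_option autoImplicit false

namespace Pool.Agent.Lib.MP_7f190d_al

section conn

variable {X : Type} {C : ConeDat X} {MV : GMet (CV C)} {δ e : ℕ}

/-- a step of length at most `30` inside `LL u v`. -/
def Lk (MV : GMet (CV C)) (u v b c : CV C) : Prop := b ∈ LL u v ∧ c ∈ LL u v ∧ MV.d b c ≤ 30

/-- joined by a chain inside `LL u v`. -/
def Cn (MV : GMet (CV C)) (u v b c : CV C) : Prop := Relation.ReflTransGen (Lk MV u v) b c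

theorem Lk_symm' (u v b c : CV C) (h : Lk MV u v b c) : Lk MV u v c b :=
  ⟨h.2.1, h.1, by rw [MV.symm]; exact h.2.2⟩

theorem Cn_symm (u v b c : CV C) (h : Cn MV u v b c) : Cn MV u v c b := by
  unfold Cn at *
  induction h with
  | refl => exact Relation.ReflTransGen.refl
  | tail _ hbc ih => exact Relation.ReflTransGen.head (Lk_symm' u v _ _ hbc) ih

theorem Cn_swap (u v b c : CV C) (h : Cn MV u v b c) : Cn MV v u b c := by
  unfold Cn at *
  have : Lk MV u v = Lk MV v u := by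
    unfold Lk; rw [LL_symm]
  rw [← this]; exact h

theorem Tr_conn_left (hMV : MVOK MV) (j : C.J) (u v : CV C) (hr : Rel j u v) (k : ℕ) :
    ∀ m, CV.htj j u ≤ m → m + k = TJ j u v → Cn MV u v (PT j u m) (PT j u (TJ j u v)) := by
  induction k with
  | zero =>
    intro m _ h
    have : m = TJ j u v := by omega
    rw [this]; exact Relation.ReflTransGen.refl
  | succ k ih =>
    intro m h1 h2
    refine Relation.ReflTransGen.head ?_ (ih (m + 1) (by omega) (by omega))
    refine ⟨Or.inr ⟨j, hr, mem_Tr_left j u v m h1 (by omega)⟩,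
      Or.inr ⟨j, hr, mem_Tr_left j u v (m + 1) (by omega) (by omega)⟩, ?_⟩
    have := MV_PT hMV j u m (m + 1)
    omega

theorem Tr_conn_top (hMV : MVOK MV) (j : C.J) (u v z : CV C) (hr : Rel j u v)
    (hz : z ∈ Tr j u v) : Cn MV u v z (PT j u (TJ j u v)) := by
  obtain ⟨m, hm, ⟨h, rfl⟩ | ⟨h, rfl⟩⟩ := hz
  · exact Tr_conn_left hMV j u v hr (TJ j u v - m) m h (by omega)
  · have h1 := Tr_conn_left hMV j v u ((Rel_symm j u v).mp hr) (TJ j u v - m) m h
      (by rw [TJ_symm j v u]; omega)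
    have h2 := Cn_swap _ _ _ _ h1
    refine Relation.ReflTransGen.tail h2 ?_
    rw [TJ_symm j v u]
    refine ⟨Or.inr ⟨j, hr, mem_Tr_right j u v _ (TJ_right j u v) le_rfl⟩,
      Or.inr ⟨j, hr, mem_Tr_left j u v _ (TJ_left j u v) le_rfl⟩, ?_⟩
    rw [MV.symm]
    exact (MV_top hMV j u v).trans (by omega)

theorem Tr_conn (hMV : MVOK MV) (j : C.J) (u v z w : CV C) (hr : Rel j u v)
    (hz : z ∈ Tr j u v) (hw : w ∈ Tr j u v) : Cn MV u v z w :=
  Relation.ReflTransGen.trans (Tr_conn_top hMV j u v z hr hz)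
    (Cn_symm _ _ _ _ (Tr_conn_top hMV j u v w hr hw))

/-- the representatives of a point `z` between the centres -/
def Rp (u v : CV C) (z : X) (w : CV C) : Prop :=
  (w = CV.base z ∧ w ∈ Xp u v) ∨ ∃ j, Deep j z u v ∧ Rel j u v ∧ w ∈ Tr j u v

theorem Rp_symm (u v : CV C) (z : X) (w : CV C) (h : Rp u v z w) : Rp v u z w := by
  rcases h with ⟨h1, h2⟩ | ⟨j, h1, h2, h3⟩
  · exact Or.inl ⟨h1, Xp_symm u v ▸ h2⟩
  · exact Or.inr ⟨j, (Deep_symm j z u v).mp h1, (Rel_symm j u v).mp h2, Tr_symm j u v ▸ h3⟩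

theorem exists_Rp (F : LFacts C δ e) (u v : CV C) (z : X)
    (hz : C.M.Btw (CV.ctr u) z (CV.ctr v)) : ∃ w, Rp u v z w := by
  by_cases hd : ∀ j, ¬ Deep j z u v
  · exact ⟨CV.base z, Or.inl ⟨rfl, z, rfl, hz, hd⟩⟩
  · push Not at hd
    obtain ⟨j, hj⟩ := hd
    obtain ⟨_, hr⟩ := deep_near F j z u v hj hz
    exact ⟨_, Or.inr ⟨j, hj, hr, mem_Tr_left j u v _ (TJ_left j u v) le_rfl⟩⟩

theorem Xp_deep_conn (F : LFacts C δ e) (hMV : MVOK MV) (u v : CV C) (z z' : X) (w w' : CV C)
    (hzz : C.M.d z z' ≤ 1) (hw : w = CV.base z ∧ w ∈ Xp u v) (j : C.J)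
    (hnd : ¬ Deep j z u v) (hbt : C.M.Btw (CV.ctr u) z' (CV.ctr v))
    (hd : Deep j z' u v) (hr : Rel j u v) (hw' : w' ∈ Tr j u v) :
    Cn MV u v w w' := by
  have hSe := F.hSe
  have he := F.he
  have hS := C.hS
  obtain ⟨rfl, hw⟩ := hw
  obtain ⟨hn, _⟩ := deep_near F j z' u v hd hbt
  have hpp := F.X1 j z' z
  rw [C.M.symm z' z] at hpp
  unfold Deep at hnd
  rw [not_and_or] at hnd
  push Not at hnd
  rcases hnd with ⟨ha, hb⟩ | ⟨ha, hb⟩
  · have hmem : PT j u 0 ∈ Tr j u v := mem_Tr_left j u v 0 (by omega) (by omega)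
    refine Relation.ReflTransGen.head (b := PT j u 0) ⟨Or.inl hw, Or.inr ⟨j, hr, hmem⟩, ?_⟩
      (Tr_conn hMV j u v _ _ hr hmem hw')
    rw [PT_zero]
    refine (MV_base hMV 11 _ _ ?_).trans (by omega)
    have t1 := C.M.tri z z' (C.pr j (CV.ctr u))
    have t2 := C.M.tri z' (C.pr j z') (C.pr j (CV.ctr u))
    have t3 := C.M.tri (C.pr j z') (C.pr j z) (C.pr j (CV.ctr u))
    omega
  · have hmem : PT j v 0 ∈ Tr j u v := mem_Tr_right j u v 0 (by omega) (by omega)
    refine Relation.ReflTransGen.head (b := PT j v 0) ⟨Or.inl hw, Or.inr ⟨j, hr, hmem⟩, ?_⟩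
      (Tr_conn hMV j u v _ _ hr hmem hw')
    rw [PT_zero]
    refine (MV_base hMV 11 _ _ ?_).trans (by omega)
    have t1 := C.M.tri z z' (C.pr j (CV.ctr v))
    have t2 := C.M.tri z' (C.pr j z') (C.pr j (CV.ctr v))
    have t3 := C.M.tri (C.pr j z') (C.pr j z) (C.pr j (CV.ctr v))
    omega

theorem Rp_step (F : LFacts C δ e) (hMV : MVOK MV) (u v : CV C) (z z' : X) (w w' : CV C)
    (hz : C.M.Btw (CV.ctr u) z (CV.ctr v)) (hz' : C.M.Btw (CV.ctr u) z' (CV.ctr v))
    (hzz : C.M.d z z' ≤ 1) (hb : C.M.Btw z z' (CV.ctr v)) (hw : Rp u v z w)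
    (hw' : Rp u v z' w') : Cn MV u v w w' := by
  have hSe := F.hSe
  have he := F.he
  have hS := C.hS
  have notdeep : ∀ (y : X) (w : CV C), w = CV.base y ∧ w ∈ Xp u v → ∀ j, ¬ Deep j y u v := by
    rintro y w ⟨rfl, y', h1, h2, h3⟩ j
    have : y = y' := by injection h1
    rw [this]; exact h3 j
  rcases hw with hw | ⟨i, hi, hri, hwi⟩
  · rcases hw' with hw' | ⟨j, hj, hrj, hwj⟩
    · refine Relation.ReflTransGen.single ⟨Or.inl hw.2, Or.inl hw'.2, ?_⟩
      rw [hw.1, hw'.1]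
      exact (MV_base hMV 1 _ _ (by omega)).trans (by omega)
    · exact Xp_deep_conn F hMV u v z z' w w' hzz hw j (notdeep z w hw j) hz' hj hrj hwj
  · rcases hw' with hw' | ⟨j, hj, hrj, hwj⟩
    · exact Cn_symm _ _ _ _ (Xp_deep_conn F hMV u v z' z w' w (by rw [C.M.symm]; exact hzz) hw' i
        (notdeep z' w' hw' i) hz hi hri hwi)
    · by_cases hij : i = j
      · subst hij
        exact Tr_conn hMV i u v w w' hri hwi hwj
      · exfalso
        obtain ⟨hi1, _⟩ := deep_near F i z u v hi hz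
        obtain ⟨hj1, _⟩ := deep_near F j z' u v hj hz'
        have hfar : 2 * C.S ≤ C.M.d z' (CV.ctr v) := by
          rcases hj.2 with h | h
          · rcases hi.2 with h' | h'
            · exact absurd (CV.htj_unique i j v h' h) hij
            · have h1 := F.X1 i z (CV.ctr v)
              have h2 := C.M.tri z z' (CV.ctr v)
              omega
          · have := F.X1 j z' (CV.ctr v)
            omega
        refine overlap F i j hij z z' (CV.ctr v) hzz hb hi1 hj1 ?_ ?_ hfar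
        · rcases hi.2 with h | h
          · exact Or.inl (CV.ctr_mem i v h)
          · right; omega
        · rcases hj.2 with h | h
          · exact Or.inl (CV.ctr_mem j v h)
          · right; omega

theorem Rp_chain (F : LFacts C δ e) (hMV : MVOK MV) (u v : CV C) (wv : CV C)
    (hwv : Rp u v (CV.ctr v) wv) (n : ℕ) :
    ∀ (z : X) (w : CV C), C.M.Btw (CV.ctr u) z (CV.ctr v) → C.M.d z (CV.ctr v) = n →
      Rp u v z w → Cn MV u v w wv := by
  induction n with
  | zero =>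
    intro z w hz hd hw
    have : z = CV.ctr v := C.M.eq0 _ _ hd
    subst this
    exact Rp_step F hMV u v _ _ w wv hz hz (by rw [C.M.self]; omega)
      (by unfold GMet.Btw; rw [C.M.self]) hw hwv
  | succ n ih =>
    intro z w hz hd hw
    obtain ⟨z', h1, h2⟩ := C.M.geod z (CV.ctr v) 1 (by omega)
    have hb : C.M.Btw z z' (CV.ctr v) := by unfold GMet.Btw; omega
    have hz' : C.M.Btw (CV.ctr u) z' (CV.ctr v) := by
      unfold GMet.Btw at *
      have t1 := C.M.tri (CV.ctr u) z z'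
      have t2 := C.M.tri (CV.ctr u) z' (CV.ctr v)
      omega
    obtain ⟨w', hw'⟩ := exists_Rp F u v z' hz'
    exact Relation.ReflTransGen.trans
      (Rp_step F hMV u v z z' w w' hz hz' (by omega) hb hw hw')
      (ih z' w' hz' (by omega) hw')

theorem end_conn (F : LFacts C δ e) (hMV : MVOK MV) (u v : CV C) :
    ∃ w, Rp u v (CV.ctr u) w ∧ Cn MV u v u w := by
  have hSe := F.hSe
  have he := F.he
  have hS := C.hS
  rcases CV.base_or_htj u with ⟨x, rfl⟩ | ⟨j, hj⟩
  · exact ⟨CV.base x, Or.inl ⟨rfl, left_Xp x v⟩, Relation.ReflTransGen.refl⟩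
  · have hrel : Rel j u v := Or.inl hj
    by_cases hd : Deep j (CV.ctr u) u v
    · exact ⟨u, Or.inr ⟨j, hd, hrel, left_Tr j u v hj⟩, Relation.ReflTransGen.refl⟩
    · have hnd : ∀ i, ¬ Deep i (CV.ctr u) u v := by
        intro i hi
        rcases hi.1 with h | h
        · have := CV.htj_unique i j u h hj
          subst this
          exact hd hi
        · rw [C.M.self] at h; omega
      have hXp : (CV.base (CV.ctr u) : CV C) ∈ Xp u v :=
        ⟨_, rfl, by unfold GMet.Btw; rw [C.M.self]; omega, hnd⟩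
      refine ⟨CV.base (CV.ctr u), Or.inl ⟨rfl, hXp⟩, ?_⟩
      unfold Deep at hd
      rw [not_and_or] at hd
      push Not at hd
      rcases hd with ⟨h, _⟩ | ⟨ha, hb⟩
      · omega
      · have hmem : PT j v 0 ∈ Tr j u v := mem_Tr_right j u v 0 (by omega) (by omega)
        refine Relation.ReflTransGen.tail (Tr_conn hMV j u v u (PT j v 0) hrel
          (left_Tr j u v hj) hmem) ⟨Or.inr ⟨j, hrel, hmem⟩, Or.inl hXp, ?_⟩
        rw [PT_zero, MV.symm]
        refine (MV_base hMV 10 _ _ ?_).trans (by omega)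
        rw [C.pr_of_mem j _ (CV.ctr_mem j u hj)] at hb
        exact hb

theorem LL_conn (F : LFacts C δ e) (hMV : MVOK MV) (u v : CV C) : Cn MV u v u v := by
  obtain ⟨w, hw, hc⟩ := end_conn F hMV u v
  obtain ⟨w', hw', hc'⟩ := end_conn F hMV v u
  have h1 := Rp_chain F hMV u v w' (Rp_symm v u _ _ hw') _ (CV.ctr u) w
    (by unfold GMet.Btw; rw [C.M.self]; omega) rfl hw
  exact (hc.trans h1).trans (Cn_symm _ _ _ _ (Cn_swap _ _ _ _ hc'))

theorem Cn_cross (u v b c : CV C) (h : Cn MV u v b c) (Q : CV C → Prop) (hb : Q b) (hc : ¬ Q c) :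
    ∃ b' ∈ LL u v, ∃ c' ∈ LL u v, Q b' ∧ ¬ Q c' ∧ MV.d b' c' ≤ 30 := by
  unfold Cn at h
  induction h with
  | refl => exact absurd hb hc
  | @tail b' c' _ hbc ih =>
    by_cases hq : Q b'
    · exact ⟨b', hbc.1, c', hbc.2.1, hq, hc, hbc.2.2⟩
    · exact ih hq

end conn

/-- Module L, from the statements of modules P and B2. -/
theorem l_of (hP : PStatement) (hB2 : B2Statement) : LStatement := by
  intro X C δ q e hC MV hMV
  have F := LFacts.of hP hB2 C δ q e hC
  refine ⟨LL, ⟨LL_left, LL_right, ?_, ?_, ?_⟩, ?_⟩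
  · intro u v Q hu hv
    exact Cn_cross u v u v (LL_conn F hMV u v) Q hu hv
  · intro u v w z hz
    exact LL_thin F hMV u v w z hz
  · intro u v h z hz
    exact (LL_small F hMV u v h z hz).trans (by omega)
  · intro j u v hp hq h
    exact LL_full j u v h

end Pool.Agent.Lib.MP_7f190d_al
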