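import Pool.Agent.Lib.MP_7f190d_al.Interfaces

/-!
# Module L (the sets `Lx u v`), part a: definitions and basic facts
-/

set_option autoImplicit false

namespace Pool.Agent.Lib.MP_7f190d_al

/-! ## Elementary facts about `GMet` -/

theorem GMet.btw_symm {V : Type} (M : GMet V) {x z y : V} (h : M.Btw x z y) : M.Btw y z x := by
  unfold GMet.Btw at *
  rw [M.symm y z, M.symm z x, M.symm y x]; omega

theorem GMet.exists_nst {V : Type} (M : GMet V) {Y : Set V} (hY : Y.Nonempty) (x : V) :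
    ∃ a, M.Nst Y x a := by
  classical
  have hex : ∃ n, ∃ a ∈ Y, M.d x a = n := by
    obtain ⟨a, ha⟩ := hY
    exact ⟨M.d x a, a, ha, rfl⟩
  obtain ⟨a, ha, hd⟩ := Nat.find_spec hex
  refine ⟨a, ha, fun y hy => ?_⟩
  rw [hd]
  exact Nat.find_min' hex ⟨y, hy, rfl⟩

theorem ConeDat.pr_nst {X : Type} (C : ConeDat X) (j : C.J) (x : X) :
    C.M.Nst (C.Y j) x (C.pr j x) :=
  Classical.epsilon_spec (C.M.exists_nst (C.ne j) x)

theorem ConeDat.pr_mem {X : Type} (C : ConeDat X) (j : C.J) (x : X) : C.pr j x ∈ C.Y j :=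
  (C.pr_nst j x).1

theorem ConeDat.pr_le {X : Type} (C : ConeDat X) (j : C.J) (x y : X) (hy : y ∈ C.Y j) :
    C.M.d x (C.pr j x) ≤ C.M.d x y :=
  (C.pr_nst j x).2 y hy

theorem ConeDat.pr_of_mem {X : Type} (C : ConeDat X) (j : C.J) (x : X) (hx : x ∈ C.Y j) :
    C.pr j x = x := by
  have h := C.pr_le j x x hx
  rw [C.M.self] at h
  exact (C.M.eq0 _ _ (Nat.le_zero.mp h)).symm

theorem ConeDat.S_pos {X : Type} (C : ConeDat X) : 0 < C.S := by have := C.hS; omega

section CVfacts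

variable {X : Type} {C : ConeDat X}

theorem CV.htj_le (j : C.J) (u : CV C) : CV.htj j u ≤ C.ρ + 1 := by
  classical
  cases u with
  | base x => simp [CV.htj]
  | cone i y hy k hk =>
    simp only [CV.htj]
    split_ifs <;> omega
  | apex i =>
    simp only [CV.htj]
    split_ifs <;> omega

theorem CV.ctr_mem (j : C.J) (u : CV C) (h : 0 < CV.htj j u) : CV.ctr u ∈ C.Y j := by
  classical
  cases u with
  | base x => simp [CV.htj] at h
  | cone i y hy k hk =>
    simp only [CV.htj] at h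
    split_ifs at h with hij
    · subst hij; exact hy
    · omega
  | apex i =>
    simp only [CV.htj] at h
    split_ifs at h with hij
    · subst hij; exact (C.ne i).some_mem
    · omega

theorem CV.htj_unique (i j : C.J) (u : CV C) (hi : 0 < CV.htj i u) (hj : 0 < CV.htj j u) :
    i = j := by
  classical
  cases u with
  | base x => simp [CV.htj] at hi
  | cone k y hy m hk =>
    simp only [CV.htj] at hi hj
    split_ifs at hi hj with h1 h2
    · exact h1.symm.trans h2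
    all_goals omega
  | apex k =>
    simp only [CV.htj] at hi hj
    split_ifs at hi hj with h1 h2
    · exact h1.symm.trans h2
    all_goals omega

/-- either `u` is a base vertex or it is in a unique cone. -/
theorem CV.base_or_htj (u : CV C) : (∃ x, u = CV.base x) ∨ ∃ j, 0 < CV.htj j u := by
  classical
  cases u with
  | base x => exact Or.inl ⟨x, rfl⟩
  | cone k y hy m hk => exact Or.inr ⟨k, by simp [CV.htj]; omega⟩
  | apex k => exact Or.inr ⟨k, by simp [CV.htj]⟩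

theorem CV.pt_zero (j : C.J) (y : X) (hy : y ∈ C.Y j) : CV.pt j y hy 0 = CV.base y := by
  simp [CV.pt]

theorem CV.pt_apex (j : C.J) (y : X) (hy : y ∈ C.Y j) (m : ℕ) (hm : C.ρ < m) :
    CV.pt j y hy m = CV.apex j := by
  have h0 : m ≠ 0 := by omega
  have h1 : ¬ m ≤ C.ρ := by omega
  simp [CV.pt, h0, h1]

theorem CV.pt_cone (j : C.J) (y : X) (hy : y ∈ C.Y j) (m : ℕ) (h0 : 1 ≤ m) (hm : m ≤ C.ρ) :
    CV.pt j y hy m = CV.cone j y hy m ⟨h0, hm⟩ := by
  have h0' : m ≠ 0 := by omega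
  simp [CV.pt, h0', hm]

/-- The point above the projection of the centre of `u` to `Y j` at height `m`. -/
noncomputable def PT (j : C.J) (u : CV C) (m : ℕ) : CV C :=
  CV.pt j (C.pr j (CV.ctr u)) (C.pr_mem j _) m

theorem PT_zero (j : C.J) (u : CV C) : PT j u 0 = CV.base (C.pr j (CV.ctr u)) := CV.pt_zero _ _ _

theorem PT_apex (j : C.J) (u : CV C) (m : ℕ) (hm : C.ρ < m) : PT j u m = CV.apex j :=
  CV.pt_apex _ _ _ _ hm

/-- a vertex of the cone `j` is the point above its centre. -/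
theorem PT_self (j : C.J) (u : CV C) (h : 0 < CV.htj j u) : PT j u (CV.htj j u) = u := by
  classical
  have hm := CV.ctr_mem j u h
  have hp : C.pr j (CV.ctr u) = CV.ctr u := C.pr_of_mem j _ hm
  cases u with
  | base x => simp [CV.htj] at h
  | cone i y hy k hk =>
    simp only [CV.htj] at h ⊢
    split_ifs at h ⊢ with hij
    · subst hij
      unfold PT
      rw [CV.pt_cone _ _ _ _ hk.1 hk.2]
      congr 1
    · omega
  | apex i =>
    simp only [CV.htj] at h ⊢
    split_ifs at h ⊢ with hij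
    · subst hij
      exact PT_apex _ _ _ (by omega)
    · omega

/-! ## `lam` and `tj` -/

theorem ConeDat.exists_lam (C : ConeDat X) (a : ℕ) : ∃ m, a ≤ 2 ^ m * C.S := by
  refine ⟨a, ?_⟩
  have h1 : a ≤ 2 ^ a := Nat.lt_two_pow_self.le
  exact h1.trans (Nat.le_mul_of_pos_right _ C.S_pos)

/-- the least `m` with `a ≤ 2 ^ m * S`. -/
noncomputable def ConeDat.lam (C : ConeDat X) (a : ℕ) : ℕ := Nat.find (C.exists_lam a)

theorem ConeDat.lam_spec (C : ConeDat X) (a : ℕ) : a ≤ 2 ^ C.lam a * C.S :=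
  Nat.find_spec (C.exists_lam a)

theorem ConeDat.lam_le (C : ConeDat X) (a m : ℕ) (h : a ≤ 2 ^ m * C.S) : C.lam a ≤ m :=
  Nat.find_min' (C.exists_lam a) h

theorem ConeDat.le_of_lam_le (C : ConeDat X) (a m : ℕ) (h : C.lam a ≤ m) : a ≤ 2 ^ m * C.S :=
  (C.lam_spec a).trans (Nat.mul_le_mul_right _ (Nat.pow_le_pow_right (by norm_num) h))

theorem ConeDat.lam_add (C : ConeDat X) (a b c : ℕ) (h : c ≤ a + b) :
    C.lam c ≤ max (C.lam a) (C.lam b) + 1 := by
  apply C.lam_le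
  have h1 := C.le_of_lam_le a (max (C.lam a) (C.lam b)) (le_max_left _ _)
  have h2 := C.le_of_lam_le b (max (C.lam a) (C.lam b)) (le_max_right _ _)
  calc c ≤ a + b := h
    _ ≤ 2 ^ (max (C.lam a) (C.lam b)) * C.S + 2 ^ (max (C.lam a) (C.lam b)) * C.S :=
        Nat.add_le_add h1 h2
    _ = _ := by rw [pow_succ]; ring

theorem ConeDat.lt_lam (C : ConeDat X) (a m : ℕ) (h : 2 ^ m * C.S < a) : m < C.lam a := by
  by_contra hc
  exact absurd (C.le_of_lam_le a m (by omega)) (by omega)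

/-- distance of the projections of the centres. -/
noncomputable def PD (j : C.J) (u v : CV C) : ℕ :=
  C.M.d (C.pr j (CV.ctr u)) (C.pr j (CV.ctr v))

theorem PD_symm (j : C.J) (u v : CV C) : PD j u v = PD j v u := C.M.symm _ _

theorem PD_tri (j : C.J) (u v w : CV C) : PD j u w ≤ PD j u v + PD j v w := C.M.tri _ _ _

/-- the top height. -/
noncomputable def TJ (j : C.J) (u v : CV C) : ℕ :=
  min (C.ρ + 1) (max (max (CV.htj j u) (CV.htj j v)) (C.lam (PD j u v)))

theorem TJ_symm (j : C.J) (u v : CV C) : TJ j u v = TJ j v u := by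
  unfold TJ; rw [PD_symm, max_comm (CV.htj j u)]

theorem TJ_left (j : C.J) (u v : CV C) : CV.htj j u ≤ TJ j u v := by
  unfold TJ
  have := CV.htj_le j u
  exact le_min this ((le_max_left _ _).trans (le_max_left _ _))

theorem TJ_right (j : C.J) (u v : CV C) : CV.htj j v ≤ TJ j u v := by
  rw [TJ_symm]; exact TJ_left j v u

theorem TJ_le (j : C.J) (u v : CV C) : TJ j u v ≤ C.ρ + 1 := min_le_left _ _

theorem TJ_lam (j : C.J) (u v : CV C) (h : TJ j u v ≤ C.ρ) : C.lam (PD j u v) ≤ TJ j u v := by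
  unfold TJ at *
  omega

theorem TJ_tri (j : C.J) (u v w : CV C) : TJ j u v ≤ max (TJ j u w) (TJ j w v) + 1 := by
  have h1 := C.lam_add (PD j u w) (PD j w v) (PD j u v) (PD_tri j u w v)
  unfold TJ
  omega

theorem TJ_le_of (j : C.J) (u v : CV C) (m : ℕ) (hu : CV.htj j u ≤ m) (hv : CV.htj j v ≤ m)
    (h : PD j u v ≤ 2 ^ m * C.S) : TJ j u v ≤ m := by
  have := C.lam_le _ _ h
  unfold TJ
  omega

/-! ## The sets -/

/-- two vertical segments in the cone `j`. -/
def Tr (j : C.J) (u v : CV C) : Set (CV C) :=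
  {z | ∃ m, m ≤ TJ j u v ∧ ((CV.htj j u ≤ m ∧ z = PT j u m) ∨ (CV.htj j v ≤ m ∧ z = PT j v m))}

/-- the cone `j` is relevant for `u,v`. -/
def Rel (j : C.J) (u v : CV C) : Prop :=
  0 < CV.htj j u ∨ 0 < CV.htj j v ∨ 5 * C.S < PD j u v

/-- `z` is deep in the cone `j`. -/
def Deep (j : C.J) (z : X) (u v : CV C) : Prop :=
  (0 < CV.htj j u ∨ 10 * C.S < C.M.d (C.pr j z) (C.pr j (CV.ctr u))) ∧
    (0 < CV.htj j v ∨ 10 * C.S < C.M.d (C.pr j z) (C.pr j (CV.ctr v)))

/-- the part in the base. -/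
def Xp (u v : CV C) : Set (CV C) :=
  {w | ∃ z, w = CV.base z ∧ C.M.Btw (CV.ctr u) z (CV.ctr v) ∧ ∀ j, ¬ Deep j z u v}

/-- the sets `Lx`. -/
def LL (u v : CV C) : Set (CV C) := {w | w ∈ Xp u v ∨ ∃ j, Rel j u v ∧ w ∈ Tr j u v}

theorem Tr_symm (j : C.J) (u v : CV C) : Tr j u v = Tr j v u := by
  ext z
  simp only [Tr, Set.mem_setOf_eq, TJ_symm j u v]
  constructor
  · rintro ⟨m, hm, h⟩; exact ⟨m, hm, h.symm⟩
  · rintro ⟨m, hm, h⟩; exact ⟨m, hm, h.symm⟩

theorem Rel_symm (j : C.J) (u v : CV C) : Rel j u v ↔ Rel j v u := by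
  unfold Rel; rw [PD_symm]; tauto

theorem Deep_symm (j : C.J) (z : X) (u v : CV C) : Deep j z u v ↔ Deep j z v u := by
  unfold Deep; tauto

theorem Xp_symm (u v : CV C) : Xp u v = Xp v u := by
  ext w
  constructor
  · rintro ⟨z, h1, h2, h3⟩
    exact ⟨z, h1, C.M.btw_symm h2, fun j hj => h3 j ((Deep_symm j z u v).mpr hj)⟩
  · rintro ⟨z, h1, h2, h3⟩
    exact ⟨z, h1, C.M.btw_symm h2, fun j hj => h3 j ((Deep_symm j z v u).mpr hj)⟩

theorem LL_symm (u v : CV C) : LL u v = LL v u := by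
  ext w
  simp only [LL, Set.mem_setOf_eq]
  rw [Xp_symm u v]
  constructor
  · rintro (h | ⟨j, h, h'⟩)
    · exact Or.inl h
    · exact Or.inr ⟨j, (Rel_symm j u v).mp h, Tr_symm j u v ▸ h'⟩
  · rintro (h | ⟨j, h, h'⟩)
    · exact Or.inl h
    · exact Or.inr ⟨j, (Rel_symm j v u).mp h, Tr_symm j v u ▸ h'⟩

theorem mem_Tr_left (j : C.J) (u v : CV C) (m : ℕ) (h : CV.htj j u ≤ m) (h' : m ≤ TJ j u v) :
    PT j u m ∈ Tr j u v := ⟨m, h', Or.inl ⟨h, rfl⟩⟩

theorem mem_Tr_right (j : C.J) (u v : CV C) (m : ℕ) (h : CV.htj j v ≤ m) (h' : m ≤ TJ j u v) :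
    PT j v m ∈ Tr j u v := ⟨m, h', Or.inr ⟨h, rfl⟩⟩

/-- `u ∈ L(u,v)` and more precisely. -/
theorem left_Xp (x : X) (v : CV C) : (CV.base x : CV C) ∈ Xp (CV.base x) v := by
  refine ⟨x, rfl, ?_, ?_⟩
  · unfold GMet.Btw; simp only [CV.ctr]; rw [C.M.self]; omega
  · intro j hj
    rcases hj.1 with h | h
    · simp [CV.htj] at h
    · simp only [CV.ctr] at h; rw [C.M.self] at h; omega

theorem left_Tr (j : C.J) (u v : CV C) (h : 0 < CV.htj j u) : u ∈ Tr j u v := by
  have := mem_Tr_left j u v (CV.htj j u) le_rfl (TJ_left j u v)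
  rwa [PT_self j u h] at this

theorem LL_left (u v : CV C) : u ∈ LL u v := by
  rcases CV.base_or_htj u with ⟨x, rfl⟩ | ⟨j, hj⟩
  · exact Or.inl (left_Xp x v)
  · exact Or.inr ⟨j, Or.inl hj, left_Tr j u v hj⟩

theorem LL_right (u v : CV C) : v ∈ LL u v := by rw [LL_symm]; exact LL_left v u

theorem LL_full (j : C.J) (u v : CV C) (h : 2 ^ C.ρ * C.S < PD j u v) :
    (∀ m, CV.htj j u ≤ m → m ≤ C.ρ + 1 → PT j u m ∈ LL u v) ∧
      (∀ m, CV.htj j v ≤ m → m ≤ C.ρ + 1 → PT j v m ∈ LL u v) := by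
  have hlam := C.lt_lam _ _ h
  have hT : TJ j u v = C.ρ + 1 := by unfold TJ; omega
  have h5 : 5 * C.S < PD j u v := by
    have h10 : 2 ^ 10 ≤ 2 ^ C.ρ := Nat.pow_le_pow_right (by norm_num) C.hρ
    have : 2 ^ 10 * C.S ≤ 2 ^ C.ρ * C.S := Nat.mul_le_mul_right _ h10
    omega
  have hrel : Rel j u v := Or.inr (Or.inr h5)
  constructor
  · intro m h1 h2
    exact Or.inr ⟨j, hrel, mem_Tr_left j u v m h1 (by omega)⟩
  · intro m h1 h2
    exact Or.inr ⟨j, hrel, mem_Tr_right j u v m h1 (by omega)⟩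

end CVfacts

end Pool.Agent.Lib.MP_7f190d_al
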