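import Pool.Agent.Lib.MP_7f190d_al.H54.LDefs

/-!
# Module L, part b: facts about projections in a `ConeHyp`, distances in the coned off graph,
the property `small`
-/

set_option autoImplicit false

namespace Pool.Agent.Lib.MP_7f190d_al

/-! ## Facts about the projections -/

/-- The facts about projections which are used in module L. -/
structure LFacts {X : Type} (C : ConeDat X) (δ e : ℕ) : Prop where
  hδ : 4 * δ ≤ e
  hSe : 100 * e ≤ C.S
  he : 1 ≤ e
  X1 : ∀ j x y, C.M.d (C.pr j x) (C.pr j y) ≤ C.M.d x y + e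
  X2 : ∀ j x y, e < C.M.d (C.pr j x) (C.pr j y) →
    ∃ p, C.M.Btw x p y ∧ C.M.d p (C.pr j x) ≤ e
  X3 : ∀ j x z y, C.M.Btw x z y →
    C.M.d (C.pr j x) (C.pr j z) + C.M.d (C.pr j z) (C.pr j y) ≤
      C.M.d (C.pr j x) (C.pr j y) + e
  X4 : ∀ j x z y, C.M.Btw x z y → (x ∈ C.Y j ∨ e < C.M.d (C.pr j x) (C.pr j z)) →
    (y ∈ C.Y j ∨ e < C.M.d (C.pr j z) (C.pr j y)) → C.M.d z (C.pr j z) ≤ e
  SEG : ∀ j z w y, C.M.d z (C.pr j z) ≤ e →
    (y ∈ C.Y j ∨ 4 * C.S < C.M.d (C.pr j z) (C.pr j y)) → C.M.Btw z w y →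
    C.M.d z w ≤ 2 * C.S → ∃ y' ∈ C.Y j, C.M.d w y' ≤ 2 * e
  ov : ∀ i j, i ≠ j → ∀ x x', (∃ y ∈ C.Y i, C.M.d x y ≤ 2 * e) →
    (∃ y ∈ C.Y j, C.M.d x y ≤ 2 * e) → (∃ y ∈ C.Y i, C.M.d x' y ≤ 2 * e) →
    (∃ y ∈ C.Y j, C.M.d x' y ≤ 2 * e) → C.M.d x x' ≤ C.S
  PB : ∀ i j, i ≠ j → ∀ y ∈ C.Y j, ∀ y' ∈ C.Y j, C.M.d (C.pr i y) (C.pr i y') ≤ C.S
  B2 : ∀ x y z w, C.M.Btw x w y → ∃ w', (C.M.Btw x w' z ∨ C.M.Btw z w' y) ∧ C.M.d w w' ≤ e

theorem LFacts.of (hP : PStatement) (hB2 : B2Statement) {X : Type} (C : ConeDat X) (δ q e : ℕ)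
    (hC : ConeHyp C δ q e) : LFacts C δ e := by
  have he := hC.he
  have hSe := hC.hSe
  have hov := hC.ov
  have X1 : ∀ j x y, C.M.d (C.pr j x) (C.pr j y) ≤ C.M.d x y + e := by
    intro j x y
    exact (hP X C.M δ q (C.Y j) hC.hyp (hC.qc j) e he).2.1 x y _ _ (C.pr_nst j x) (C.pr_nst j y)
  have X2 : ∀ j x y, e < C.M.d (C.pr j x) (C.pr j y) →
      ∃ p, C.M.Btw x p y ∧ C.M.d p (C.pr j x) ≤ e := by
    intro j x y h
    obtain ⟨⟨p, h1, _, h2⟩, _⟩ := (hP X C.M δ q (C.Y j) hC.hyp (hC.qc j) e he).2.2.1 x y _ _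
      (C.pr_nst j x) (C.pr_nst j y) h
    exact ⟨p, h1, h2⟩
  refine ⟨by omega, hSe, by omega, X1, X2, ?_, ?_, ?_, hov, ?_, ?_⟩
  · intro j x z y h
    exact (hP X C.M δ q (C.Y j) hC.hyp (hC.qc j) e he).2.2.2.1 x z y _ _ _ h
      (C.pr_nst j x) (C.pr_nst j z) (C.pr_nst j y)
  · intro j x z y h h1 h2
    exact (hP X C.M δ q (C.Y j) hC.hyp (hC.qc j) e he).2.2.2.2.1 x z y _ _ _ h
      (C.pr_nst j x) (C.pr_nst j z) (C.pr_nst j y) h1 h2
  · intro j z w y h1 h2 h3 h4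
    exact (hP X C.M δ q (C.Y j) hC.hyp (hC.qc j) e he).2.2.2.2.2 C.S z w y _ _ hSe
      (C.pr_nst j z) (C.pr_nst j y) h1 h2 h3 h4
  · intro i j hij y hy y' hy'
    by_contra hc
    have h1 : e < C.M.d (C.pr i y) (C.pr i y') := by omega
    obtain ⟨p, hp1, hp2⟩ := X2 i y y' h1
    obtain ⟨p', hp1', hp2'⟩ := X2 i y' y (by rw [C.M.symm]; exact h1)
    obtain ⟨r, hr, hr'⟩ := hC.qc j y hy y' hy' p hp1
    obtain ⟨s, hs, hs'⟩ := hC.qc j y' hy' y hy p' hp1'
    apply hc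
    apply hov i j hij
    · exact ⟨_, C.pr_mem i y, by rw [C.M.self]; omega⟩
    · refine ⟨r, hr, ?_⟩
      have := C.M.tri (C.pr i y) p r
      have h2 := C.M.symm (C.pr i y) p
      omega
    · exact ⟨_, C.pr_mem i y', by rw [C.M.self]; omega⟩
    · refine ⟨s, hs, ?_⟩
      have := C.M.tri (C.pr i y') p' s
      have h2 := C.M.symm (C.pr i y') p'
      omega
  · intro x y z w h
    obtain ⟨w', h1, h2⟩ := hB2 X C.M δ hC.hyp x y z w h
    exact ⟨w', h1, by omega⟩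

section Facts

variable {X : Type} {C : ConeDat X} {δ e : ℕ}

/-- Fact (c). -/
theorem deep_near (F : LFacts C δ e) (j : C.J) (z : X) (u v : CV C) (hd : Deep j z u v)
    (hz : C.M.Btw (CV.ctr u) z (CV.ctr v)) : C.M.d z (C.pr j z) ≤ e ∧ Rel j u v := by
  have hSe := F.hSe
  have he := F.he
  constructor
  · apply F.X4 j _ z _ hz
    · rcases hd.1 with h | h
      · exact Or.inl (CV.ctr_mem j u h)
      · right; rw [C.M.symm]; omega
    · rcases hd.2 with h | h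
      · exact Or.inl (CV.ctr_mem j v h)
      · right; omega
  · rcases hd.1 with h | h
    · exact Or.inl h
    rcases hd.2 with h' | h'
    · exact Or.inr (Or.inl h')
    have h3 := F.X3 j _ z _ hz
    right; right
    unfold PD
    rw [C.M.symm] at h
    omega

/-- The overlap lemma (d). -/
theorem overlap (F : LFacts C δ e) (i j : C.J) (hij : i ≠ j) (z z' y : X)
    (hzz : C.M.d z z' ≤ 1) (hb : C.M.Btw z z' y)
    (hi : C.M.d z (C.pr i z) ≤ e) (hj : C.M.d z' (C.pr j z') ≤ e)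
    (hyi : y ∈ C.Y i ∨ 4 * C.S < C.M.d (C.pr i z) (C.pr i y))
    (hyj : y ∈ C.Y j ∨ 4 * C.S < C.M.d (C.pr j z') (C.pr j y))
    (hy : 2 * C.S ≤ C.M.d z' y) : False := by
  have hSe := F.hSe
  have he := F.he
  have hS := C.hS
  obtain ⟨w, hw1, hw2⟩ := C.M.geod z' y (2 * C.S - 1) (by omega)
  have hbw : C.M.Btw z' w y := by unfold GMet.Btw; omega
  unfold GMet.Btw at hb hbw
  have ht1 := C.M.tri z z' w
  have ht2 := C.M.tri z w y
  have hbw' : C.M.Btw z w y := by unfold GMet.Btw; omega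
  obtain ⟨a, ha, ha'⟩ := F.SEG i z w y hi hyi hbw' (by omega)
  obtain ⟨b, hb', hb''⟩ := F.SEG j z' w y hj hyj hbw (by omega)
  have h := F.ov i j hij z' w
    ⟨C.pr i z, C.pr_mem i z, by
      have := C.M.tri z' z (C.pr i z)
      have := C.M.symm z z'
      omega⟩
    ⟨C.pr j z', C.pr_mem j z', by omega⟩ ⟨a, ha, ha'⟩ ⟨b, hb', hb''⟩
  omega

/-- Fact (b) in terms of `PD`. -/
theorem PD_other (F : LFacts C δ e) (i j : C.J) (hij : i ≠ j) (u v : CV C)
    (hu : 0 < CV.htj j u) (hv : 0 < CV.htj j v) : PD i u v ≤ C.S :=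
  F.PB i j hij _ (CV.ctr_mem j u hu) _ (CV.ctr_mem j v hv)

end Facts

/-! ## Distances in the coned off graph -/

section MVfacts

variable {X : Type} {C : ConeDat X} {MV : GMet (CV C)}

/-- the relation between `MV` and the graph -/
def MVOK (MV : GMet (CV C)) : Prop := ∀ u v, MV.d u v ≤ 1 ↔ (u = v ∨ CV.E u v ∨ CV.E v u)

theorem MV_base (hMV : MVOK MV) (k : ℕ) : ∀ x x' : X, C.M.d x x' ≤ k * C.S →
    MV.d (CV.base x) (CV.base x') ≤ k := by
  induction k with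
  | zero =>
    intro x x' h
    have : x = x' := C.M.eq0 _ _ (by omega)
    subst this
    rw [MV.self]
  | succ k ih =>
    intro x x' h
    rcases Nat.lt_or_ge (C.M.d x x') C.S with h1 | h1
    · have := (hMV (CV.base x) (CV.base x')).mpr (Or.inr (Or.inl (CV.E.base x x' h1.le)))
      omega
    · obtain ⟨w, hw1, hw2⟩ := C.M.geod x x' C.S h1
      have h2 := (hMV (CV.base x) (CV.base w)).mpr (Or.inr (Or.inl (CV.E.base x w (by omega))))
      have h3 := ih w x' (by rw [Nat.succ_mul] at h; omega)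
      have := MV.tri (CV.base x) (CV.base w) (CV.base x')
      omega

theorem MV_vert (hMV : MVOK MV) (j : C.J) (y : X) (hy : y ∈ C.Y j) (k l : ℕ) (h : k ≤ l) :
    MV.d (CV.pt j y hy k) (CV.pt j y hy l) ≤ l - k := by
  induction l, h using Nat.le_induction with
  | base => rw [MV.self]; omega
  | succ l hkl ih =>
    have h1 := (hMV _ _).mpr (Or.inr (Or.inl (CV.E.vert j y hy l)))
    have h2 := MV.tri (CV.pt j y hy k) (CV.pt j y hy l) (CV.pt j y hy (l + 1))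
    omega

theorem MV_PT (hMV : MVOK MV) (j : C.J) (u : CV C) (k l : ℕ) :
    MV.d (PT j u k) (PT j u l) ≤ max k l - min k l := by
  rcases le_total k l with h | h
  · have := MV_vert hMV j (C.pr j (CV.ctr u)) (C.pr_mem j _) k l h
    unfold PT; omega
  · have := MV_vert hMV j (C.pr j (CV.ctr u)) (C.pr_mem j _) l k h
    unfold PT
    rw [MV.symm]; omega

theorem MV_horiz (hMV : MVOK MV) (j : C.J) (u v : CV C) (m : ℕ)
    (h : PD j u v ≤ 2 ^ m * C.S) : MV.d (PT j u m) (PT j v m) ≤ 1 :=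
  (hMV _ _).mpr (Or.inr (Or.inl (CV.E.horiz j _ _ _ _ m h)))

/-- The tops of the two segments of `Tr j u v` are adjacent. -/
theorem MV_top (hMV : MVOK MV) (j : C.J) (u v : CV C) :
    MV.d (PT j u (TJ j u v)) (PT j v (TJ j u v)) ≤ 1 := by
  rcases Nat.lt_or_ge C.ρ (TJ j u v) with h | h
  · rw [PT_apex j u _ h, PT_apex j v _ h, MV.self]; omega
  · exact MV_horiz hMV j u v _ (C.le_of_lam_le _ _ (TJ_lam j u v h))

/-! ## The property `small` -/

/-- `Lx u v` for two vertices which are in the same cone `j`, at positive heights. -/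
theorem LL_same {δ e : ℕ} (F : LFacts C δ e) (j : C.J) (u v w : CV C) (hu : 0 < CV.htj j u)
    (hv : 0 < CV.htj j v) (hw : w ∈ LL u v) : w ∈ Tr j u v := by
  have hS := C.hS
  rcases hw with ⟨z, _, _, hz⟩ | ⟨i, hi, hw⟩
  · exact absurd ⟨Or.inl hu, Or.inl hv⟩ (hz j)
  · by_cases hij : i = j
    · subst hij; exact hw
    · exfalso
      rcases hi with h | h | h
      · exact hij (CV.htj_unique i j u h hu)
      · exact hij (CV.htj_unique i j v h hv)
      · have := PD_other F i j hij u v hu hv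
        have : C.S ≤ 5 * C.S := by omega
        omega

/-- a point of `Tr j u v` is close to `u` if the top is not much higher than `u`. -/
theorem Tr_near (hMV : MVOK MV) (j : C.J) (u v w : CV C) (hu : 0 < CV.htj j u)
    (K : ℕ) (hK : TJ j u v ≤ CV.htj j u + K) (hv : CV.htj j u ≤ CV.htj j v + K)
    (hw : w ∈ Tr j u v) : MV.d w u ≤ 3 * K + 1 := by
  obtain ⟨m, hm, ⟨h, rfl⟩ | ⟨h, rfl⟩⟩ := hw
  · have h1 := MV_PT hMV j u m (CV.htj j u)
    rw [PT_self j u hu] at h1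
    omega
  · have h1 := MV_PT hMV j v m (TJ j u v)
    have h2 := MV_top hMV j u v
    have h3 := MV_PT hMV j u (TJ j u v) (CV.htj j u)
    rw [PT_self j u hu] at h3
    have h4 := TJ_left j u v
    have h5 := MV.tri (PT j v m) (PT j v (TJ j u v)) u
    have h6 := MV.tri (PT j v (TJ j u v)) (PT j u (TJ j u v)) u
    have h7 := MV.symm (PT j u (TJ j u v)) (PT j v (TJ j u v))
    omega

end MVfacts

end Pool.Agent.Lib.MP_7f190d_al
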