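import Pool.Agent.Lib.MP_7f190d_al.H54.LFacts

/-!
# Module L, part b': the property `small`
-/

set_option autoImplicit false

namespace Pool.Agent.Lib.MP_7f190d_al

section small

variable {X : Type} {C : ConeDat X} {MV : GMet (CV C)} {δ e : ℕ}

theorem htj_pt (j : C.J) (y : X) (hy : y ∈ C.Y j) (m : ℕ) :
    CV.htj j (CV.pt j y hy m) = min m (C.ρ + 1) := by
  classical
  rcases Nat.eq_zero_or_pos m with h | h
  · subst h; rw [CV.pt_zero]; simp [CV.htj]
  · rcases Nat.lt_or_ge C.ρ m with h1 | h1
    · rw [CV.pt_apex j y hy m h1]; simp [CV.htj]; omega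
    · rw [CV.pt_cone j y hy m h h1]; simp [CV.htj]; omega

theorem htj_pt_ne (i j : C.J) (hij : i ≠ j) (y : X) (hy : y ∈ C.Y j) (m : ℕ) :
    CV.htj i (CV.pt j y hy m) = 0 := by
  classical
  rcases Nat.eq_zero_or_pos m with h | h
  · subst h; rw [CV.pt_zero]; simp [CV.htj]
  · rcases Nat.lt_or_ge C.ρ m with h1 | h1
    · rw [CV.pt_apex j y hy m h1]; simp [CV.htj]; exact fun h => absurd h.symm hij
    · rw [CV.pt_cone j y hy m h h1]; simp [CV.htj]; exact fun h => absurd h.symm hij

theorem ctr_pt (j : C.J) (y : X) (hy : y ∈ C.Y j) (m : ℕ) (hm : m ≤ C.ρ) :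
    CV.ctr (CV.pt j y hy m) = y := by
  rcases Nat.eq_zero_or_pos m with h | h
  · subst h; rw [CV.pt_zero]; simp [CV.ctr]
  · rw [CV.pt_cone j y hy m h hm]; simp [CV.ctr]

theorem PD_self (j : C.J) (u : CV C) : PD j u u = 0 := C.M.self _

theorem small_base (F : LFacts C δ e) (hMV : MVOK MV) (x x' : X) (h : C.M.d x x' ≤ C.S)
    (w : CV C) (hw : w ∈ LL (CV.base x) (CV.base x')) : MV.d w (CV.base x) ≤ 1 := by
  have hSe := F.hSe
  have he := F.he
  rcases hw with ⟨z, rfl, hz, _⟩ | ⟨i, hi, _⟩
  · apply MV_base hMV 1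
    simp only [CV.ctr] at hz
    unfold GMet.Btw at hz
    rw [C.M.symm]; omega
  · exfalso
    rcases hi with h1 | h1 | h1
    · simp [CV.htj] at h1
    · simp [CV.htj] at h1
    · have h2 := F.X1 i x x'
      unfold PD at h1
      simp only [CV.ctr] at h1
      omega

theorem small_cone (F : LFacts C δ e) (hMV : MVOK MV) (j : C.J) (u v : CV C)
    (hu : 0 < CV.htj j u) (hv : 0 < CV.htj j v) (h1 : TJ j u v ≤ CV.htj j u + 1)
    (h2 : CV.htj j u ≤ CV.htj j v + 1)
    (w : CV C) (hw : w ∈ LL u v) : MV.d w u ≤ 4 :=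
  Tr_near hMV j u v w hu 1 h1 h2 (LL_same F j u v w hu hv hw)

theorem small_E (F : LFacts C δ e) (hMV : MVOK MV) (u v : CV C) (h : CV.E u v)
    (w : CV C) (hw : w ∈ LL u v) : MV.d w u ≤ 4 := by
  have hρ := C.hρ
  induction h with
  | base x x' h =>
    exact (small_base F hMV x x' h w hw).trans (by omega)
  | vert j y hy k =>
    rcases Nat.eq_zero_or_pos k with hk | hk
    · subst hk
      have hcu : CV.ctr (CV.pt j y hy 0) = y := ctr_pt j y hy 0 (by omega)
      have hcv : CV.ctr (CV.pt j y hy (0 + 1)) = y := ctr_pt j y hy 1 (by omega)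
      have hpy : C.pr j y = y := C.pr_of_mem j y hy
      rcases hw with ⟨z, rfl, hz, _⟩ | ⟨i, hi, hw⟩
      · rw [hcu, hcv] at hz
        unfold GMet.Btw at hz
        rw [C.M.self] at hz
        have : y = z := C.M.eq0 _ _ (by omega)
        subst this
        rw [CV.pt_zero, MV.self]; omega
      · have hPD : PD i (CV.pt j y hy 0) (CV.pt j y hy (0 + 1)) = 0 := by
          unfold PD; rw [hcu, hcv, C.M.self]
        by_cases hij : i = j
        · subst hij
          have hT : TJ i (CV.pt i y hy 0) (CV.pt i y hy (0 + 1)) ≤ 1 := by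
            apply TJ_le_of
            · rw [htj_pt]; omega
            · rw [htj_pt]; omega
            · rw [hPD]; exact Nat.zero_le _
          have e1 : ∀ m, PT i (CV.pt i y hy 0) m = CV.pt i y hy m := by
            intro m; unfold PT; simp only [hcu, hpy]
          have e2 : ∀ m, PT i (CV.pt i y hy (0 + 1)) m = CV.pt i y hy m := by
            intro m; unfold PT; simp only [hcv, hpy]
          obtain ⟨m, hm, ⟨_, rfl⟩ | ⟨_, rfl⟩⟩ := hw
          · rw [e1, MV.symm]
            have := MV_vert hMV i y hy 0 m (by omega)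
            omega
          · rw [e2, MV.symm]
            have := MV_vert hMV i y hy 0 m (by omega)
            omega
        · exfalso
          rcases hi with h1 | h1 | h1
          · rw [htj_pt_ne i j hij] at h1; omega
          · rw [htj_pt_ne i j hij] at h1; omega
          · omega
    · have hT : TJ j (CV.pt j y hy k) (CV.pt j y hy (k + 1)) ≤
          CV.htj j (CV.pt j y hy k) + 1 := by
        rw [htj_pt]
        rcases Nat.lt_or_ge k C.ρ with h1 | h1
        · apply TJ_le_of
          · rw [htj_pt]
            omega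
          · rw [htj_pt]
            omega
          · unfold PD
            rw [ctr_pt j y hy k (by omega), ctr_pt j y hy (k + 1) (by omega), C.M.self]
            omega
        · have := TJ_le j (CV.pt j y hy k) (CV.pt j y hy (k + 1))
          omega
      refine small_cone F hMV j _ _ ?_ ?_ hT ?_ w hw
      · rw [htj_pt]; omega
      · rw [htj_pt]; omega
      · rw [htj_pt, htj_pt]; omega
  | horiz j y y' hy hy' k h =>
    rcases Nat.eq_zero_or_pos k with hk | hk
    · subst hk
      rw [CV.pt_zero, CV.pt_zero] at hw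
      rw [CV.pt_zero]
      exact (small_base F hMV y y' (by simpa using h) w hw).trans (by omega)
    · have hT : TJ j (CV.pt j y hy k) (CV.pt j y' hy' k) ≤
          CV.htj j (CV.pt j y hy k) + 1 := by
        rw [htj_pt]
        rcases Nat.lt_or_ge C.ρ k with h1 | h1
        · have := TJ_le j (CV.pt j y hy k) (CV.pt j y' hy' k)
          omega
        · have : TJ j (CV.pt j y hy k) (CV.pt j y' hy' k) ≤ k := by
            apply TJ_le_of
            · rw [htj_pt]
              omega
            · rw [htj_pt]
              omega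
            · unfold PD
              rw [ctr_pt j y hy k h1, ctr_pt j y' hy' k h1, C.pr_of_mem j y hy,
                C.pr_of_mem j y' hy']
              exact h
          omega
      refine small_cone F hMV j _ _ ?_ ?_ hT ?_ w hw
      · rw [htj_pt]; omega
      · rw [htj_pt]; omega
      · rw [htj_pt, htj_pt]; omega

theorem small_self (F : LFacts C δ e) (hMV : MVOK MV) (u : CV C)
    (w : CV C) (hw : w ∈ LL u u) : MV.d w u ≤ 4 := by
  rcases CV.base_or_htj u with ⟨x, rfl⟩ | ⟨j, hj⟩
  · exact (small_base F hMV x x (by rw [C.M.self]; omega) w hw).trans (by omega)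
  · refine small_cone F hMV j _ _ hj hj ?_ (by omega) w hw
    have : TJ j u u ≤ CV.htj j u := by
      apply TJ_le_of _ _ _ _ le_rfl le_rfl
      rw [PD_self]; omega
    omega

theorem LL_small (F : LFacts C δ e) (hMV : MVOK MV) (u v : CV C) (h : MV.d u v ≤ 1)
    (w : CV C) (hw : w ∈ LL u v) : MV.d w u ≤ 5 := by
  rcases (hMV u v).mp h with h1 | h1 | h1
  · subst h1
    exact (small_self F hMV u w hw).trans (by omega)
  · exact (small_E F hMV u v h1 w hw).trans (by omega)
  · rw [LL_symm] at hw
    have h2 := small_E F hMV v u h1 w hw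
    have h3 := MV.tri w v u
    have h4 := MV.symm u v
    omega

end small

end Pool.Agent.Lib.MP_7f190d_al
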