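import Pool.Agent.Lib.MP_7f190d_al.H54.LSmall

/-!
# Module L, part c: thin triangles
-/

set_option autoImplicit false

namespace Pool.Agent.Lib.MP_7f190d_al

section thin

variable {X : Type} {C : ConeDat X} {MV : GMet (CV C)} {δ e : ℕ}

theorem cone_thin_aux (hMV : MVOK MV) (j : C.J) (u₁ u₂ u₃ : CV C) (m : ℕ)
    (h1 : CV.htj j u₁ ≤ m) (h2 : m ≤ TJ j u₁ u₂) :
    ∃ t, (t ∈ Tr j u₁ u₃ ∨ t ∈ Tr j u₃ u₂) ∧ MV.d (PT j u₁ m) t ≤ 2 := by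
  by_cases h3 : m ≤ TJ j u₁ u₃
  · exact ⟨_, Or.inl (mem_Tr_left j u₁ u₃ m h1 h3), by rw [MV.self]; omega⟩
  have h13l := TJ_left j u₁ u₃
  have h13r := TJ_right j u₁ u₃
  by_cases h4 : m = TJ j u₁ u₃ + 1
  · refine ⟨_, Or.inl (mem_Tr_left j u₁ u₃ (TJ j u₁ u₃) h13l le_rfl), ?_⟩
    have := MV_PT hMV j u₁ m (TJ j u₁ u₃)
    omega
  have htri := TJ_tri j u₁ u₂ u₃
  have h12 := TJ_le j u₁ u₂
  have hPD : PD j u₁ u₃ ≤ 2 ^ m * C.S :=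
    C.le_of_lam_le _ _ ((TJ_lam j u₁ u₃ (by omega)).trans (by omega))
  refine ⟨_, Or.inr (mem_Tr_left j u₃ u₂ (min m (TJ j u₃ u₂)) (by omega) (by omega)), ?_⟩
  have h5 := MV_horiz hMV j u₁ u₃ m hPD
  have h6 := MV_PT hMV j u₃ m (min m (TJ j u₃ u₂))
  have h7 := MV.tri (PT j u₁ m) (PT j u₃ m) (PT j u₃ (min m (TJ j u₃ u₂)))
  omega

theorem cone_thin (hMV : MVOK MV) (j : C.J) (u₁ u₂ u₃ z : CV C) (hz : z ∈ Tr j u₁ u₂) :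
    ∃ t, (t ∈ Tr j u₁ u₃ ∨ t ∈ Tr j u₃ u₂) ∧ MV.d z t ≤ 2 := by
  obtain ⟨m, hm, ⟨h, rfl⟩ | ⟨h, rfl⟩⟩ := hz
  · exact cone_thin_aux hMV j u₁ u₂ u₃ m h hm
  · rw [TJ_symm] at hm
    obtain ⟨t, ht, ht'⟩ := cone_thin_aux hMV j u₂ u₁ u₃ m h hm
    rw [Tr_symm j u₂ u₃, Tr_symm j u₃ u₁] at ht
    exact ⟨t, ht.symm, ht'⟩

/-- If `j` is not relevant for `u₁,u₃`, then `Tr j u₁ u₃` is close to the base point below `u₃`. -/
theorem Tr_notRel (hMV : MVOK MV) (j : C.J) (u₁ u₃ t : CV C) (hr : ¬ Rel j u₁ u₃)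
    (ht : t ∈ Tr j u₁ u₃) : MV.d t (PT j u₃ 0) ≤ 7 := by
  have hS := C.hS
  unfold Rel at hr
  push Not at hr
  obtain ⟨hr1, hr2, hr3⟩ := hr
  have hT : TJ j u₁ u₃ ≤ 3 := by
    apply TJ_le_of _ _ _ _ (by omega) (by omega)
    omega
  obtain ⟨m, hm, ⟨h, rfl⟩ | ⟨h, rfl⟩⟩ := ht
  · have h1 := MV_PT hMV j u₁ m 3
    have h2 := MV_horiz hMV j u₁ u₃ 3 (by omega)
    have h3 := MV_PT hMV j u₃ 3 0
    have h4 := MV.tri (PT j u₁ m) (PT j u₁ 3) (PT j u₃ 0)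
    have h5 := MV.tri (PT j u₁ 3) (PT j u₃ 3) (PT j u₃ 0)
    omega
  · have h1 := MV_PT hMV j u₃ m 0
    omega

/-- Case T4. -/
theorem T4_aux (F : LFacts C δ e) (hMV : MVOK MV) (j : C.J) (u₁ u₂ : CV C) (m : ℕ)
    (h1 : CV.htj j u₁ = 0) (h3 : 5 * C.S < PD j u₁ u₂)
    (hm : m ≤ 4) : ∃ z, z ∈ Xp u₁ u₂ ∧ MV.d (PT j u₁ m) z ≤ 5 := by
  have hSe := F.hSe
  have he := F.he
  have hS := C.hS
  have hPD : e < C.M.d (C.pr j (CV.ctr u₁)) (C.pr j (CV.ctr u₂)) := by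
    unfold PD at h3; omega
  obtain ⟨z, hz, hz'⟩ := F.X2 j _ _ hPD
  have hnear : C.M.d z (C.pr j z) ≤ e := (C.pr_le j z _ (C.pr_mem j _)).trans hz'
  have hpz : C.M.d (C.pr j z) (C.pr j (CV.ctr u₁)) ≤ 2 * e := by
    have := C.M.tri (C.pr j z) z (C.pr j (CV.ctr u₁))
    have := C.M.symm z (C.pr j z)
    omega
  refine ⟨CV.base z, ⟨z, rfl, hz, fun i hi => ?_⟩, ?_⟩
  · by_cases hij : i = j
    · subst hij
      rcases hi.1 with h | h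
      · omega
      · omega
    · obtain ⟨hi1, hi2⟩ := deep_near F i z u₁ u₂ hi hz
      have hfar : 4 * C.S + 2 * e < C.M.d (C.pr j z) (C.pr j (CV.ctr u₂)) := by
        have := C.M.tri (C.pr j (CV.ctr u₁)) (C.pr j z) (C.pr j (CV.ctr u₂))
        have := C.M.symm (C.pr j (CV.ctr u₁)) (C.pr j z)
        unfold PD at h3
        omega
      have hzc : 2 * C.S ≤ C.M.d z (CV.ctr u₂) := by
        have := F.X1 j z (CV.ctr u₂)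
        omega
      refine overlap F i j hij z z (CV.ctr u₂) (by rw [C.M.self]; omega)
        (by unfold GMet.Btw; rw [C.M.self]; omega) hi1 hnear ?_ (Or.inr (by omega)) hzc
      rcases hi.2 with h | h
      · exact Or.inl (CV.ctr_mem i u₂ h)
      · right; omega
  · have h4 := MV_PT hMV j u₁ m 0
    have h5 : MV.d (PT j u₁ 0) (CV.base z) ≤ 1 := by
      rw [PT_zero]
      apply MV_base hMV 1
      rw [C.M.symm]; omega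
    have := MV.tri (PT j u₁ m) (PT j u₁ 0) (CV.base z)
    omega

theorem T4 (F : LFacts C δ e) (hMV : MVOK MV) (j : C.J) (u₁ u₂ z : CV C)
    (h1 : CV.htj j u₁ = 0) (h2 : CV.htj j u₂ = 0) (h3 : 5 * C.S < PD j u₁ u₂)
    (h4 : PD j u₁ u₂ ≤ 10 * C.S) (hz : z ∈ Tr j u₁ u₂) :
    ∃ w, w ∈ Xp u₁ u₂ ∧ MV.d z w ≤ 5 := by
  have hT : TJ j u₁ u₂ ≤ 4 := by
    apply TJ_le_of _ _ _ _ (by omega) (by omega)
    omega
  obtain ⟨m, hm, ⟨h, rfl⟩ | ⟨h, rfl⟩⟩ := hz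
  · exact T4_aux F hMV j u₁ u₂ m h1 h3 (by omega)
  · rw [Xp_symm]
    rw [PD_symm] at h3
    exact T4_aux F hMV j u₂ u₁ m h2 h3 (by omega)

/-- Case X. -/
theorem caseX_aux (F : LFacts C δ e) (hMV : MVOK MV) (u₁ u₂ u₃ : CV C) (z z' : X)
    (hz : ∀ j, ¬ Deep j z u₁ u₂) (hz' : C.M.Btw (CV.ctr u₁) z' (CV.ctr u₃))
    (hzz : C.M.d z z' ≤ e) :
    ∃ t, (t ∈ LL u₁ u₃ ∨ t ∈ LL u₃ u₂) ∧ MV.d (CV.base z) t ≤ 18 := by
  have hSe := F.hSe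
  have he := F.he
  have hS := C.hS
  have hzz1 : MV.d (CV.base z) (CV.base z') ≤ 1 := MV_base hMV 1 _ _ (by omega)
  by_cases hd : ∀ i, ¬ Deep i z' u₁ u₃
  · exact ⟨_, Or.inl (Or.inl ⟨z', rfl, hz', hd⟩), by omega⟩
  push Not at hd
  obtain ⟨i, hi⟩ := hd
  obtain ⟨hn, hr⟩ := deep_near F i z' u₁ u₃ hi hz'
  have hpp := F.X1 i z' z
  rw [C.M.symm z' z] at hpp
  have hzi := hz i
  unfold Deep at hzi
  rw [not_and_or] at hzi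
  push Not at hzi
  rcases hzi with ⟨ha, hb⟩ | ⟨ha, hb⟩
  · refine ⟨PT i u₁ 0, Or.inl (Or.inr ⟨i, hr, mem_Tr_left i u₁ u₃ 0 (by omega) (by omega)⟩), ?_⟩
    rw [PT_zero]
    refine (MV_base hMV 12 _ _ ?_).trans (by omega)
    have t1 := C.M.tri z z' (C.pr i (CV.ctr u₁))
    have t2 := C.M.tri z' (C.pr i z') (C.pr i (CV.ctr u₁))
    have t3 := C.M.tri (C.pr i z') (C.pr i z) (C.pr i (CV.ctr u₁))
    omega
  · have hdist : C.M.d z (C.pr i (CV.ctr u₂)) ≤ 11 * C.S := by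
      have t1 := C.M.tri z z' (C.pr i (CV.ctr u₂))
      have t2 := C.M.tri z' (C.pr i z') (C.pr i (CV.ctr u₂))
      have t3 := C.M.tri (C.pr i z') (C.pr i z) (C.pr i (CV.ctr u₂))
      omega
    by_cases hr32 : Rel i u₃ u₂
    · refine ⟨PT i u₂ 0, Or.inr (Or.inr ⟨i, hr32, mem_Tr_right i u₃ u₂ 0 (by omega)
        (by omega)⟩), ?_⟩
      rw [PT_zero]
      exact (MV_base hMV 11 _ _ hdist).trans (by omega)
    · unfold Rel at hr32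
      push Not at hr32
      obtain ⟨h3, _, hpd⟩ := hr32
      refine ⟨PT i u₃ 0, Or.inl (Or.inr ⟨i, hr, mem_Tr_right i u₁ u₃ 0 (by omega)
        (by omega)⟩), ?_⟩
      rw [PT_zero]
      refine (MV_base hMV 16 _ _ ?_).trans (by omega)
      unfold PD at hpd
      rw [C.M.symm] at hpd
      have t1 := C.M.tri z (C.pr i (CV.ctr u₂)) (C.pr i (CV.ctr u₃))
      omega

theorem caseX (F : LFacts C δ e) (hMV : MVOK MV) (u₁ u₂ u₃ w : CV C) (hw : w ∈ Xp u₁ u₂) :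
    ∃ t, (t ∈ LL u₁ u₃ ∨ t ∈ LL u₃ u₂) ∧ MV.d w t ≤ 18 := by
  obtain ⟨z, rfl, hz, hz'⟩ := hw
  obtain ⟨z', h | h, h'⟩ := F.B2 _ _ (CV.ctr u₃) _ hz
  · exact caseX_aux F hMV u₁ u₂ u₃ z z' hz' h h'
  · obtain ⟨t, ht, ht'⟩ := caseX_aux F hMV u₂ u₁ u₃ z z'
      (fun j hj => hz' j ((Deep_symm j z u₂ u₁).mp hj)) (C.M.btw_symm h) h'
    rw [LL_symm u₂ u₃, LL_symm u₃ u₁] at ht
    exact ⟨t, ht.symm, ht'⟩

/-- Case T. -/
theorem caseT_aux (F : LFacts C δ e) (hMV : MVOK MV) (j : C.J) (u₁ u₂ u₃ z t : CV C)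
    (hr : Rel j u₁ u₂) (hz : z ∈ Tr j u₁ u₂) (ht : t ∈ Tr j u₁ u₃) (hzt : MV.d z t ≤ 2) :
    ∃ t, (t ∈ LL u₁ u₃ ∨ t ∈ LL u₃ u₂) ∧ MV.d z t ≤ 30 := by
  by_cases h13 : Rel j u₁ u₃
  · exact ⟨t, Or.inl (Or.inr ⟨j, h13, ht⟩), by omega⟩
  by_cases h32 : Rel j u₃ u₂
  · have h1 := Tr_notRel hMV j u₁ u₃ t h13 ht
    unfold Rel at h13
    push Not at h13
    refine ⟨PT j u₃ 0, Or.inr (Or.inr ⟨j, h32, mem_Tr_left j u₃ u₂ 0 (by omega) (by omega)⟩), ?_⟩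
    have := MV.tri z t (PT j u₃ 0)
    omega
  · unfold Rel at h13 h32 hr
    push Not at h13 h32
    obtain ⟨a1, a2, a3⟩ := h13
    obtain ⟨b1, b2, b3⟩ := h32
    have htri := PD_tri j u₁ u₃ u₂
    obtain ⟨w, hw, hw'⟩ := T4 F hMV j u₁ u₂ z (by omega) (by omega)
      (by rcases hr with h | h | h <;> omega) (by omega) hz
    obtain ⟨t', ht', ht''⟩ := caseX F hMV u₁ u₂ u₃ w hw
    refine ⟨t', ht', ?_⟩
    have := MV.tri z w t'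
    omega

theorem LL_thin (F : LFacts C δ e) (hMV : MVOK MV) (u₁ u₂ u₃ z : CV C) (hz : z ∈ LL u₁ u₂) :
    ∃ t, (t ∈ LL u₁ u₃ ∨ t ∈ LL u₃ u₂) ∧ MV.d z t ≤ 30 := by
  rcases hz with hz | ⟨j, hr, hz⟩
  · obtain ⟨t, ht, ht'⟩ := caseX F hMV u₁ u₂ u₃ z hz
    exact ⟨t, ht, by omega⟩
  · obtain ⟨t, ht | ht, ht'⟩ := cone_thin hMV j u₁ u₂ u₃ z hz
    · exact caseT_aux F hMV j u₁ u₂ u₃ z t hr hz ht ht'
    · rw [Tr_symm] at hz ht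
      rw [Rel_symm] at hr
      obtain ⟨t', h1, h2⟩ := caseT_aux F hMV j u₂ u₁ u₃ z t hr hz ht ht'
      rw [LL_symm u₂ u₃, LL_symm u₃ u₁] at h1
      exact ⟨t', h1.symm, h2⟩

end thin

end Pool.Agent.Lib.MP_7f190d_al
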